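import Pool.Agent.H17.SM.BHc

/-!
# MP_70ba79_ag, board `smc_modules`: row LBL

For large twist all leading coefficients (in `w`) occur.
-/

set_option autoImplicit false

namespace Pool.Agent.H17.SM

open MvPolynomial Pool.Agent.H84.SM

/-! ### Identities -/

section Id

variable {k : Type} [Field k] {L : Type} [CommRing L] [Algebra k L]

theorem euler {G : MvPolynomial (Fin 3) k} {d : ℕ} (hG : G.IsHomogeneous d) (x : Fin 3 → L) :
    dp (gr G x) x = (d : L) * aeval x G := by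
  have h := congrArg (aeval x) hG.sum_X_mul_pderiv
  rw [map_sum, map_nsmul, nsmul_eq_mul] at h
  rw [← h]
  unfold dp gr
  refine Finset.sum_congr rfl fun i _ => ?_
  rw [map_mul, aeval_X, mul_comm]

/-- the vector product in the chart `l` -/
theorem chart_id {R : Type} [CommRing R] (g x : Fin 3 → R) (q0 q1 : R) (l i : Fin 3) :
    cr x (fun i => if i = l then - (g (l + 1) * q0 + g (l + 2) * q1)
      else if i = l + 1 then g l * q0 else g l * q1) i -
      g i * (x (l + 1) * q1 - x (l + 2) * q0) =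
    dp g x * (if i = l then 0 else if i = l + 1 then - q1 else q0) := by
  unfold cr dp
  rw [Fin.sum_univ_three]
  fin_cases l <;> fin_cases i <;> simp <;> ring

end Id

section

variable {k : Type} [Field k]

/-- `G` times the projection of `y` -/
noncomputable def pA (G : MvPolynomial (Fin 3) k) (d : ℕ) (j : Fin 3) : A2 k :=
  gA G * ya j - C ((d : k)⁻¹) * (fA G * xa j)

/-- `G ^ 3` times the second logarithmic derivative -/
noncomputable def SA (G : MvPolynomial (Fin 3) k) (d : ℕ) (i : Fin 3) : R2 k :=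
  Polynomial.C (gA G ^ 2 * gr G xa i) * Polynomial.X +
    Polynomial.C (hs G xa (pA G d) * cr xa ya i)

variable {G : MvPolynomial (Fin 3) k} {d : ℕ}

theorem bh_gA (hG : G.IsHomogeneous d) : BH d 0 (gA G) := bh_aeval hG

theorem bh_gr (hG : G.IsHomogeneous d) (i : Fin 3) : BH (d - 1) 0 (gr G (xa (k := k)) i) :=
  bh_aeval hG.pderiv

theorem bh_fA (hG : G.IsHomogeneous d) : BH (d - 1) 1 (fA G) := by
  unfold fA dp
  refine bh_sum _ _ fun i _ => ?_
  have h := bh_mul (bh_gr hG i) (bh_ya (k := k) i)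
  rwa [add_zero, zero_add] at h

theorem bh_pA (hG : G.IsHomogeneous d) (hd : 1 ≤ d) (j : Fin 3) : BH d 1 (pA G d j) := by
  unfold pA
  refine bh_sub ?_ ?_
  · have h := bh_mul (bh_gA hG) (bh_ya (k := k) j)
    rwa [add_zero, zero_add] at h
  · have h := bh_mul (bh_C (k := k) ((d : k)⁻¹)) (bh_mul (bh_fA hG) (bh_xa (k := k) j))
    have e1 : 0 + (d - 1 + 1) = d := by omega
    have e2 : 0 + (1 + 0) = 1 := rfl
    rwa [e1, e2] at h

theorem bh_hs (hG : G.IsHomogeneous d) (hd : 2 ≤ d) : BH (3 * d - 2) 2 (hs G xa (pA G d)) := by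
  unfold hs
  refine bh_sum _ _ fun i _ => bh_sum _ _ fun j _ => ?_
  have h1 : BH (d - 1 - 1) 0 (aeval (xa (k := k)) (pderiv i (pderiv j G))) :=
    bh_aeval hG.pderiv.pderiv
  have h := bh_mul (bh_mul h1 (bh_pA hG (by omega) i)) (bh_pA hG (by omega) j)
  have e1 : d - 1 - 1 + d + d = 3 * d - 2 := by omega
  have e2 : 0 + 1 + 1 = 2 := rfl
  rwa [e1, e2] at h

theorem bh_cr (i : Fin 3) : BH 1 1 (cr (xa (k := k)) ya i) := by
  unfold cr
  refine bh_sub ?_ ?_
  · exact bh_mul (bh_xa _) (bh_ya _)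
  · exact bh_mul (bh_xa _) (bh_ya _)

theorem bhn_SA (hG : G.IsHomogeneous d) (hd : 2 ≤ d) (i : Fin 3) : BHN (3 * d - 1) 3 (SA G d i) := by
  unfold SA
  refine bhn_add ?_ ?_
  · have h := bh_mul (bh_pow (bh_gA hG) 2) (bh_gr hG i)
    have e1 : 2 * d + (d - 1) = 3 * d - 1 := by omega
    have e2 : 2 * 0 + 0 = 0 := rfl
    rw [e1, e2] at h
    exact bhn_CX h
  · have h := bh_mul (bh_hs hG hd) (bh_cr (k := k) i)
    have e1 : 3 * d - 2 + 1 = 3 * d - 1 := by omega
    have e2 : 2 + 1 = 3 := rfl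
    rw [e1, e2] at h
    exact bhn_C h

theorem dv_fA (hG : G.IsHomogeneous d) : dv (fA G) = (d : A2 k) * gA G := by
  have h := euler hG (xa (k := k))
  unfold gA
  rw [← h]
  unfold fA dp
  rw [map_sum]
  refine Finset.sum_congr rfl fun i _ => ?_
  have h1 : dv (gr G (xa (k := k)) i) = 0 := dv_aeval _
  rw [Derivation.leibniz, h1, dv_ya, smul_zero, add_zero, smul_eq_mul]

theorem dv_pA [CharZero k] (hG : G.IsHomogeneous d) (hd : 1 ≤ d) (j : Fin 3) :
    dv (pA G d j) = 0 := by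
  have h0 : dv (gA G) = 0 := dv_aeval _
  have hd0 : (d : k) ≠ 0 := Nat.cast_ne_zero.2 (by omega)
  have h1 : (C ((d : k)⁻¹) : A2 k) * (d : A2 k) = 1 := by
    rw [← map_natCast (C : k →+* A2 k) d, ← map_mul, inv_mul_cancel₀ hd0, map_one]
  unfold pA
  rw [map_sub, Derivation.leibniz, h0, dv_ya, Derivation.leibniz, dv_C, Derivation.leibniz, dv_xa,
    dv_fA hG]
  simp only [smul_eq_mul, add_zero, zero_add, mul_zero]
  linear_combination (-(gA G * xa j)) * h1

theorem dv_hs [CharZero k] (hG : G.IsHomogeneous d) (hd : 1 ≤ d) :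
    dv (hs G xa (pA G d)) = 0 := by
  unfold hs
  refine dv_sum0 _ _ fun i _ => dv_sum0 _ _ fun j _ => ?_
  exact dv_mul0 (dv_mul0 (dv_aeval _) (dv_pA hG hd i)) (dv_pA hG hd j)

theorem dv_cr (i : Fin 3) : dv (cr (xa (k := k)) ya i) = 0 := by
  unfold cr
  rw [map_sub, Derivation.leibniz, Derivation.leibniz, dv_xa, dv_xa, dv_ya, dv_ya]
  simp only [smul_eq_mul, mul_zero, add_zero]
  ring

theorem inv_SA [CharZero k] (hG : G.IsHomogeneous d) (hd : 1 ≤ d) (i : Fin 3) :
    Inv (SA G d i) := by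
  unfold SA
  refine inv_add (inv_mul (inv_C ?_) inv_X) (inv_C ?_)
  · exact dv_mul0 (dv_pow0 (dv_aeval _) 2) (dv_aeval _)
  · exact dv_mul0 (dv_hs hG hd) (dv_cr i)

/-! ### The substitutions -/

/-- the substitution on `A2` -/
noncomputable def th (G : MvPolynomial (Fin 3) k) (l : Fin 3) : A2 k →ₐ[k] B2 k :=
  aeval (Sum.elim xb (chy G l))

theorem th_xa (l i : Fin 3) : th G l (xa i) = xb i := by
  unfold th xa
  rw [aeval_X]
  rfl

theorem th_ya (l i : Fin 3) : th G l (ya i) = chy G l i := by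
  unfold th ya
  rw [aeval_X]
  rfl

theorem th_aeval (l : Fin 3) (φ : MvPolynomial (Fin 3) k) : th G l (aeval xa φ) = aeval xb φ := by
  have h : (th G l).comp (aeval xa) = aeval xb := by
    refine MvPolynomial.algHom_ext fun i => ?_
    rw [AlgHom.comp_apply, aeval_X, aeval_X, th_xa]
  rw [← h]
  rfl

theorem th_C (l : Fin 3) (c : k) : th G l (C c) = C c := by
  unfold th
  rw [aeval_C]
  rfl

theorem dp_chy (l : Fin 3) : dp (gr G xb) (chy G l) = 0 := by
  unfold dp chy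
  rw [Fin.sum_univ_three]
  fin_cases l <;> simp <;> ring

theorem th_fA (l : Fin 3) : th G l (fA G) = 0 := by
  rw [← dp_chy (G := G) l]
  unfold fA dp
  rw [map_sum]
  refine Finset.sum_congr rfl fun i _ => ?_
  rw [map_mul, th_ya]
  congr 1
  exact th_aeval l _

theorem th_pA (l j : Fin 3) : th G l (pA G d j) = aeval xb G * chy G l j := by
  unfold pA
  rw [map_sub, map_mul, th_ya, map_mul, map_mul, th_fA, zero_mul, mul_zero, sub_zero]
  congr 1
  exact th_aeval l _

theorem th_hs (l : Fin 3) :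
    th G l (hs G xa (pA G d)) = aeval xb G ^ 2 * hs G xb (chy G l) := by
  unfold hs
  rw [map_sum, Finset.mul_sum]
  refine Finset.sum_congr rfl fun i _ => ?_
  rw [map_sum, Finset.mul_sum]
  refine Finset.sum_congr rfl fun j _ => ?_
  rw [map_mul, map_mul, th_pA, th_pA, th_aeval]
  ring

theorem th_cr (l i : Fin 3) : th G l (cr xa ya i) = cr xb (chy G l) i := by
  unfold cr
  rw [map_sub, map_mul, map_mul, th_xa, th_xa, th_ya, th_ya]

theorem Psi_C (l : Fin 3) (c : A2 k) : Psi G d l (Polynomial.C c) = Polynomial.C (th G l c) := by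
  unfold Psi
  rw [Polynomial.coe_eval₂RingHom, Polynomial.eval₂_C]
  rfl

theorem Psi_X (l : Fin 3) : Psi G d l Polynomial.X = chw G d l := by
  unfold Psi
  rw [Polynomial.coe_eval₂RingHom, Polynomial.eval₂_X]

theorem cr_chy (hG : G.IsHomogeneous d) (l i : Fin 3) : ∃ t : B2 k,
    cr xb (chy G l) i - gr G xb i * (xb (l + 1) * qb 1 - xb (l + 2) * qb 0) =
      ((d : B2 k) * aeval xb G) * t := by
  refine ⟨if i = l then 0 else if i = l + 1 then - qb 1 else qb 0, ?_⟩
  rw [← euler hG]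
  exact chart_id (gr G xb) xb (qb 0) (qb 1) l i

theorem Psi_SA (hG : G.IsHomogeneous d) (l i : Fin 3) : gp G ^ 3 ∣ Psi G d l (SA G d i) := by
  obtain ⟨t, ht⟩ := cr_chy hG l i
  refine ⟨Polynomial.C ((d : B2 k) * gr G xb i) * Polynomial.X +
    Polynomial.C ((d : B2 k) * hs G xb (chy G l) * t), ?_⟩
  unfold SA
  have e1 : th G l (gr G xa i) = gr G xb i := th_aeval l _
  have e2 : th G l (gA G) = aeval xb G := th_aeval l _
  rw [map_add, map_mul, Psi_C, Psi_X, Psi_C, map_mul (th G l), map_pow (th G l), e1, e2,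
    map_mul (th G l), th_hs, th_cr]
  unfold chw gp
  have e3 : cr xb (chy G l) i = gr G xb i * (xb (l + 1) * qb 1 - xb (l + 2) * qb 0) +
      ((d : B2 k) * aeval xb G) * t := by
    rw [← ht]; ring
  rw [e3]
  simp only [map_add, map_mul, map_pow, map_sub, map_natCast]
  ring

/-! ### The sections -/

/-- the numerator -/
noncomputable def NN (G : MvPolynomial (Fin 3) k) (d : ℕ) {J : ℕ} (ν : Fin 3 → ℕ)
    (a : MvPolynomial (Fin 3) k) (f : Fin J → Fin 3) : R2 k :=
  Polynomial.C (aeval xa a * ∏ j, pA G d j ^ ν j) * ∏ i, SA G d (f i)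

theorem sec_NN [CharZero k] (hG : G.IsHomogeneous d) (hd : 2 ≤ d) {J n : ℕ} {τ : ℤ}
    (hJ : 3 * J ≤ n) (ν : Fin 3 → ℕ) (hν : ∑ j, ν j = n - 3 * J) (a : MvPolynomial (Fin 3) k)
    (α : ℕ) (ha : a.IsHomogeneous α) (hα : (α : ℤ) = τ - n + J) (f : Fin J → Fin 3) :
    IsSec G d n τ n (NN G d ν a f) := by
  have hd1 : 1 ≤ d := by omega
  have hsum : ∀ c : ℕ, ∑ j, ν j * c = (n - 3 * J) * c := by
    intro c
    rw [← Finset.sum_mul, hν]
  refine ⟨?_, ?_, ?_⟩
  · unfold NN
    refine inv_mul (inv_C ?_) (inv_prod _ _ fun i _ => inv_SA hG hd1 _)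
    exact dv_mul0 (dv_aeval a) (dv_prod0 _ _ fun j _ => dv_pow0 (dv_pA hG hd1 j) _)
  · have h1 := bh_mul (bh_aeval ha) (bh_prod Finset.univ _ _ _
      (fun (j : Fin 3) _ => bh_pow (bh_pA hG hd1 j) (ν j)))
    rw [hsum, hsum, mul_one, zero_add] at h1
    have h2 := bhn_mul (bhn_C h1) (bhn_prod (Finset.univ : Finset (Fin J)) _ _ _
      (fun i _ => bhn_SA hG hd (f i)))
    rw [Finset.card_univ, Fintype.card_fin] at h2
    have e1 : n - 3 * J + J * 3 = n := by omega
    rw [e1] at h2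
    refine ⟨_, ?_, h2⟩
    obtain ⟨m, rfl⟩ : ∃ m, n = 3 * J + m := ⟨n - 3 * J, by omega⟩
    have e2 : 3 * J + m - 3 * J = m := by omega
    have e3 : ((3 * d - 1 : ℕ) : ℤ) = 3 * d - 1 := by
      rw [Nat.cast_sub (by omega)]
      push_cast
      ring
    rw [e2]
    push_cast [e3]
    rw [hα]
    push_cast
    ring
  · intro l
    unfold NN
    rw [map_mul, Psi_C, map_prod]
    have e1 : gp G ^ n = gp G ^ (n - 3 * J) * ∏ _i : Fin J, gp G ^ 3 := by
      rw [Finset.prod_const, Finset.card_univ, Fintype.card_fin, ← pow_mul, ← pow_add]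
      congr 1
      omega
    rw [e1]
    refine mul_dvd_mul ?_ (Finset.prod_dvd_prod_of_dvd _ _ fun i _ => Psi_SA hG l (f i))
    rw [map_mul (th G l), map_prod (th G l), map_mul]
    refine Dvd.dvd.mul_left ?_ _
    rw [map_prod, ← hν, ← Finset.prod_pow_eq_pow_sum]
    refine Finset.prod_dvd_prod_of_dvd _ _ fun j _ => ?_
    rw [map_pow (th G l), th_pA, map_pow]
    refine pow_dvd_pow_of_dvd ?_ _
    rw [map_mul]
    exact ⟨_, rfl⟩

theorem SA_natDegree (i : Fin 3) : (SA G d i).natDegree ≤ 1 := by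
  unfold SA
  refine (Polynomial.natDegree_add_le _ _).trans (max_le ?_ ?_)
  · refine Polynomial.natDegree_C_mul_le _ _ |>.trans ?_
    exact Polynomial.natDegree_X_le
  · rw [Polynomial.natDegree_C]
    exact Nat.zero_le _

theorem SA_coeff (i : Fin 3) : (SA G d i).coeff 1 = gA G ^ 2 * gr G xa i := by
  unfold SA
  rw [Polynomial.coeff_add, Polynomial.coeff_C_mul, Polynomial.coeff_X_one, mul_one,
    Polynomial.coeff_C, if_neg one_ne_zero, add_zero]

theorem NN_high {J : ℕ} (ν : Fin 3 → ℕ) (a : MvPolynomial (Fin 3) k) (f : Fin J → Fin 3) :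
    ∀ j, J < j → (NN G d ν a f).coeff j = 0 := by
  intro j hj
  refine Polynomial.coeff_eq_zero_of_natDegree_lt (lt_of_le_of_lt ?_ hj)
  unfold NN
  refine (Polynomial.natDegree_C_mul_le _ _).trans ((Polynomial.natDegree_prod_le _ _).trans ?_)
  refine (Finset.sum_le_card_nsmul _ _ 1 fun i _ => SA_natDegree (f i)).trans ?_
  rw [Finset.card_univ, Fintype.card_fin, smul_eq_mul, mul_one]

theorem NN_coeff {J : ℕ} (ν : Fin 3 → ℕ) (a : MvPolynomial (Fin 3) k) (f : Fin J → Fin 3) :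
    (NN G d ν a f).coeff J = aeval xa a * (∏ j, pA G d j ^ ν j) *
      ∏ i, (gA G ^ 2 * gr G xa (f i)) := by
  unfold NN
  rw [Polynomial.coeff_C_mul]
  congr 1
  have h := Polynomial.coeff_prod_of_natDegree_le (Finset.univ : Finset (Fin J))
    (fun i => SA G d (f i)) 1 (fun i _ => SA_natDegree (f i))
  rw [Finset.card_univ, Fintype.card_fin, mul_one] at h
  rw [h]
  exact Finset.prod_congr rfl fun i _ => SA_coeff (f i)

theorem gF_ne (hG0 : G ≠ 0) : gF G ≠ 0 := by
  unfold gF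
  rw [Ne, FaithfulSMul.algebraMap_eq_zero_iff]
  intro h
  apply hG0
  have h1 : Function.Injective (aeval (xa (k := k)) : MvPolynomial (Fin 3) k →ₐ[k] A2 k) := by
    have h2 : (aeval (xa (k := k)) : MvPolynomial (Fin 3) k →ₐ[k] A2 k) = rename Sum.inl := by
      refine MvPolynomial.algHom_ext fun i => ?_
      rw [aeval_X, rename_X]
      rfl
    rw [h2]
    exact rename_injective _ Sum.inl_injective
  apply h1
  rw [map_zero]
  exact h

theorem map_pA [CharZero k] (hG0 : G ≠ 0) (hd : 1 ≤ d) (j : Fin 3) :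
    algebraMap (A2 k) (F2 k) (pA G d j) = gF G * pr G d j := by
  have h0 := gF_ne hG0
  have hd0 : (d : k) ≠ 0 := Nat.cast_ne_zero.2 (by omega)
  have hd1 : (d : F2 k) ≠ 0 := by
    rw [← map_natCast (algebraMap (A2 k) (F2 k)) d, Ne, FaithfulSMul.algebraMap_eq_zero_iff,
      ← map_natCast (C : k →+* A2 k) d, MvPolynomial.C_eq_zero]
    exact hd0
  have h1 : algebraMap (A2 k) (F2 k) (C ((d : k)⁻¹)) = (d : F2 k)⁻¹ := by
    rw [eq_comm, inv_eq_iff_eq_inv, eq_comm, inv_eq_of_mul_eq_one_left]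
    rw [← map_natCast (algebraMap (A2 k) (F2 k)) d, ← map_natCast (C : k →+* A2 k) d, ← map_mul,
      ← map_mul, mul_inv_cancel₀ hd0, map_one, map_one]
  unfold pA pr
  rw [map_sub, map_mul, map_mul, h1]
  change gF G * _ - _ = _
  field_simp

/-! ### The leading coefficients -/

theorem bm_aeval (φ : MvPolynomial (Fin 3) k) :
    bm G d (aeval xa φ) = algebraMap (A2 k) (F2 k) (aeval xa φ) := by
  have h : (bm G d).comp (aeval xa) =
      (IsScalarTower.toAlgHom k (A2 k) (F2 k)).comp (aeval (xa (k := k))) := by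
    refine MvPolynomial.algHom_ext fun i => ?_
    rw [AlgHom.comp_apply, AlgHom.comp_apply, aeval_X]
    unfold bm xa
    rw [aeval_X]
    rfl
  exact congrArg (fun θ : MvPolynomial (Fin 3) k →ₐ[k] F2 k => θ φ) h

theorem bm_ya (j : Fin 3) : bm G d (ya j) = pr G d j := by
  unfold bm ya
  rw [aeval_X]
  rfl

theorem val_NN [CharZero k] (hG0 : G ≠ 0) (hd : 1 ≤ d) {J n : ℕ}
    (hJ : 3 * J ≤ n) (ν : Fin 3 → ℕ) (hν : ∑ j, ν j = n - 3 * J) (a : MvPolynomial (Fin 3) k)
    (f : Fin J → Fin 3) :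
    (sec G n (NN G d ν a f)).coeff J * gF G ^ J =
      bm G d (aeval xa a * (∏ j, ya j ^ ν j) * ∏ i, gr G xa (f i)) := by
  have h0 := gF_ne hG0
  unfold sec
  rw [Polynomial.coeff_C_mul, Polynomial.coeff_map, NN_coeff, map_mul, map_mul, map_mul, map_mul,
    bm_aeval, map_prod, map_prod, map_prod, map_prod]
  have h1 : ∏ j, algebraMap (A2 k) (F2 k) (pA G d j ^ ν j) =
      gF G ^ (n - 3 * J) * ∏ j, bm G d (ya j ^ ν j) := by
    rw [← hν, ← Finset.prod_pow_eq_pow_sum, ← Finset.prod_mul_distrib]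
    refine Finset.prod_congr rfl fun j _ => ?_
    rw [map_pow, map_pA hG0 hd, map_pow, bm_ya, mul_pow]
  have h2 : ∏ i, algebraMap (A2 k) (F2 k) (gA G ^ 2 * gr G xa (f i)) =
      gF G ^ (2 * J) * ∏ i, bm G d (gr G xa (f i)) := by
    have e : ∀ i ∈ (Finset.univ : Finset (Fin J)),
        algebraMap (A2 k) (F2 k) (gA G ^ 2 * gr G xa (f i)) =
        gF G ^ 2 * bm G d (gr G xa (f i)) := by
      intro i _
      rw [map_mul, map_pow]
      congr 1
      exact (bm_aeval _).symm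
    rw [Finset.prod_congr rfl e, Finset.prod_mul_distrib, Finset.prod_const, Finset.card_univ,
      Fintype.card_fin, ← pow_mul]
  rw [h1, h2]
  have h3 : gF G ^ n = gF G ^ (n - 3 * J) * gF G ^ (2 * J) * gF G ^ J := by
    rw [← pow_add, ← pow_add]
    congr 1
    omega
  have h4 : (gF G ^ n)⁻¹ * (gF G ^ (n - 3 * J) * gF G ^ (2 * J) * gF G ^ J) = 1 := by
    rw [← h3]
    exact inv_mul_cancel₀ (pow_ne_zero _ h0)
  linear_combination (algebraMap (A2 k) (F2 k) (aeval xa a) *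
    (∏ j, bm G d (ya j ^ ν j)) * ∏ i, bm G d (gr G xa (f i))) * h4

/-- `f` is the leading coefficient of a section -/
def W (G : MvPolynomial (Fin 3) k) (d n : ℕ) (τ : ℤ) (J : ℕ) (f : F2 k) : Prop :=
  ∃ N, IsSec G d n τ n N ∧ (∀ j, J < j → N.coeff j = 0) ∧ (sec G n N).coeff J * gF G ^ J = f

theorem W_add {n : ℕ} {τ : ℤ} {J : ℕ} {f g : F2 k} (hf : W G d n τ J f) (hg : W G d n τ J g) :
    W G d n τ J (f + g) := by
  obtain ⟨N, ⟨h1, ⟨e, he, h2⟩, h3⟩, h4, h5⟩ := hf
  obtain ⟨N', ⟨h1', ⟨e', he', h2'⟩, h3'⟩, h4', h5'⟩ := hg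
  have hee : e' = e := by
    have : (e' : ℤ) = e := by rw [he, he']
    exact_mod_cast this
  subst hee
  refine ⟨N + N', ⟨inv_add h1 h1', ⟨e', he', bhn_add h2 h2'⟩, fun l => ?_⟩, fun j hj => ?_, ?_⟩
  · rw [map_add]
    exact dvd_add (h3 l) (h3' l)
  · rw [Polynomial.coeff_add, h4 j hj, h4' j hj, add_zero]
  · rw [← h5, ← h5']
    unfold sec
    rw [Polynomial.map_add, mul_add, Polynomial.coeff_add, add_mul]

theorem W_zero {n : ℕ} {τ : ℤ} {J : ℕ} (h : 0 ≤ τ - n + d * n) : W G d n τ J 0 := by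
  refine ⟨0, ⟨fun j => by rw [Polynomial.coeff_zero, map_zero],
    ⟨(τ - n + d * n).toNat, Int.toNat_of_nonneg h, bhn_zero _ _⟩, fun l => ?_⟩, fun j _ => rfl, ?_⟩
  · rw [map_zero]
    exact dvd_zero _
  · unfold sec
    rw [Polynomial.map_zero, mul_zero, Polynomial.coeff_zero, zero_mul]

theorem W_smul {n : ℕ} {τ : ℤ} {J : ℕ} {f : F2 k} (c : k) (hf : W G d n τ J f) :
    W G d n τ J (c • f) := by
  obtain ⟨N, ⟨h1, ⟨e, he, h2⟩, h3⟩, h4, h5⟩ := hf
  refine ⟨Polynomial.C (C c) * N, ⟨inv_mul (inv_C (dv_C c)) h1, ⟨e, he, ?_⟩, fun l => ?_⟩,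
    fun j hj => ?_, ?_⟩
  · have h := bhn_mul (bhn_C (bh_C c)) h2
    rwa [zero_add, zero_add] at h
  · rw [map_mul]
    exact Dvd.dvd.mul_left (h3 l) _
  · rw [Polynomial.coeff_C_mul, h4 j hj, mul_zero]
  · rw [← h5]
    unfold sec
    rw [Polynomial.map_mul, Polynomial.map_C, Polynomial.coeff_C_mul, Polynomial.coeff_C_mul,
      Polynomial.coeff_C_mul, Algebra.smul_def]
    have e1 : algebraMap (A2 k) (F2 k) (C c) = algebraMap k (F2 k) c :=
      (IsScalarTower.algebraMap_apply k (A2 k) (F2 k) c).symm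
    rw [e1]
    ring

theorem W_sum {ι : Type*} {n : ℕ} {τ : ℤ} {J : ℕ} (h : 0 ≤ τ - n + d * n) (s : Finset ι)
    (f : ι → F2 k) (hf : ∀ i ∈ s, W G d n τ J (f i)) : W G d n τ J (∑ i ∈ s, f i) := by
  classical
  induction s using Finset.induction_on with
  | empty =>
    rw [Finset.sum_empty]
    exact W_zero h
  | insert a s ha ih =>
    rw [Finset.sum_insert ha]
    exact W_add (hf a (Finset.mem_insert_self a s))
      (ih fun j hj => hf j (Finset.mem_insert_of_mem hj))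

/-- the weights of a monomial -/
theorem wt {w : Fin 3 ⊕ Fin 3 → ℕ} {b : A2 k} {e : ℕ} (hb : IsWeightedHomogeneous w b e)
    {m : Fin 3 ⊕ Fin 3 →₀ ℕ} (hm : m ∈ b.support) :
    ∑ i, m (Sum.inl i) * w (Sum.inl i) + ∑ i, m (Sum.inr i) * w (Sum.inr i) = e := by
  have h2 := hb (mem_support_iff.1 hm)
  rw [Finsupp.weight_apply, Finsupp.sum_fintype _ _ (fun i => by simp), Fintype.sum_sum_type] at h2
  simpa using h2

theorem pf_LBL (hPWR : T_PWR) : T_LBL := by
  intro k _ _ _ G d hd hS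
  have hG := hS.1
  have hG0 : G ≠ 0 := by
    rintro rfl
    have h1 := hS.2 (fun _ => 1) (fun i => by rw [map_zero, map_zero])
    exact one_ne_zero (congrFun h1 0)
  obtain ⟨e0, he0⟩ := hPWR k G d (by omega) hS
  refine ⟨e0, fun n τ hτ J hJ f hf => ?_⟩
  have hnn : 0 ≤ τ - n + d * n := by
    have : (0 : ℤ) ≤ d * n := by positivity
    omega
  suffices h : W G d n τ J f by
    obtain ⟨N, h1, h2, h3⟩ := h
    exact ⟨n, N, h1, h2, h3⟩
  induction hf using Submodule.span_induction with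
  | zero => exact W_zero hnn
  | add x y _ _ hx hy => exact W_add hx hy
  | smul c x _ hx => exact W_smul c hx
  | mem x hx =>
    obtain ⟨e', b, he', hb, rfl⟩ := hx
    rw [b.as_sum, map_sum]
    refine W_sum hnn _ _ fun m hm => ?_
    have hm1 := wt hb.1 hm
    have hm2 := wt hb.2 hm
    simp only [wx, wy, Sum.elim_inl, Sum.elim_inr, mul_one, mul_zero, Finset.sum_const_zero,
      add_zero, zero_add] at hm1 hm2
    have hle : e0 + J * (d - 1) ≤ e' := by
      have h1 : ((J * (d - 1) : ℕ) : ℤ) ≤ d * J := by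
        have : J * (d - 1) ≤ d * J := by
          rw [mul_comm]
          exact Nat.mul_le_mul_right _ (Nat.sub_le _ _)
        exact_mod_cast this
      omega
    have hφ : (C (coeff m b) * ∏ i : Fin 3, X i ^ m (Sum.inl i) :
        MvPolynomial (Fin 3) k).IsHomogeneous e' := by
      have h1 : (∏ i : Fin 3, X i ^ m (Sum.inl i) : MvPolynomial (Fin 3) k).IsHomogeneous
          (∑ i, m (Sum.inl i)) :=
        IsHomogeneous.prod _ _ _ fun i _ => isHomogeneous_X_pow _ _
      have h2 := (isHomogeneous_C (Fin 3) (coeff m b)).mul h1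
      rwa [zero_add, hm1] at h2
    obtain ⟨a, ha, hsum⟩ := he0 J e' _ hle hφ
    have hmono : (monomial m (coeff m b) : A2 k) =
        ∑ f, aeval xa (a f) * (∏ j, ya j ^ m (Sum.inr j)) * ∏ i, gr G xa (f i) := by
      have h1 : (monomial m (coeff m b) : A2 k) = aeval xa (C (coeff m b) *
          ∏ i : Fin 3, X i ^ m (Sum.inl i)) * ∏ j, ya j ^ m (Sum.inr j) := by
        rw [monomial_eq, Finsupp.prod_fintype _ _ (fun i => pow_zero _), Fintype.prod_sum_type,
          map_mul, aeval_C, map_prod, mul_assoc]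
        congr 2
        refine Finset.prod_congr rfl fun i _ => ?_
        rw [map_pow, aeval_X]
        rfl
      rw [h1, hsum, map_sum, Finset.sum_mul]
      refine Finset.sum_congr rfl fun f _ => ?_
      rw [map_mul, map_prod]
      have e3 : ∏ i, aeval (xa (k := k)) (pderiv (f i) G) = ∏ i, gr G xa (f i) := rfl
      rw [e3]
      ring
    rw [hmono, map_sum]
    refine W_sum hnn _ _ fun f _ => ?_
    refine ⟨NN G d (fun j => m (Sum.inr j)) (a f) f, ?_, NN_high _ _ _, ?_⟩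
    · refine sec_NN hG hd hJ _ hm2 (a f) _ (ha f) ?_ f
      rw [Nat.cast_sub (by omega), he', Nat.cast_mul, Nat.cast_sub (by omega)]
      push_cast
      ring
    · exact val_NN hG0 (by omega) hJ _ hm2 (a f) f

end

end Pool.Agent.H17.SM
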