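import Pool.Agent.H84.SM.Targets

/-!
# MP_70ba79_ag, board `smc_modules`: calculus of bihomogeneous polynomials
-/

set_option autoImplicit false

namespace Pool.Agent.H17.SM

open MvPolynomial Pool.Agent.H84.SM

variable {k : Type} [Field k]

theorem bh_zero (e i : ℕ) : BH e i (0 : A2 k) :=
  ⟨isWeightedHomogeneous_zero k wx e, isWeightedHomogeneous_zero k wy i⟩

theorem bh_C (c : k) : BH 0 0 (C c : A2 k) :=
  ⟨isWeightedHomogeneous_C wx c, isWeightedHomogeneous_C wy c⟩

theorem bh_xa (i : Fin 3) : BH 1 0 (xa i : A2 k) :=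
  ⟨isWeightedHomogeneous_X k wx (Sum.inl i), isWeightedHomogeneous_X k wy (Sum.inl i)⟩

theorem bh_ya (i : Fin 3) : BH 0 1 (ya i : A2 k) :=
  ⟨isWeightedHomogeneous_X k wx (Sum.inr i), isWeightedHomogeneous_X k wy (Sum.inr i)⟩

theorem bh_add {e i : ℕ} {a b : A2 k} (ha : BH e i a) (hb : BH e i b) : BH e i (a + b) :=
  ⟨ha.1.add hb.1, ha.2.add hb.2⟩

theorem bh_neg {e i : ℕ} {a : A2 k} (ha : BH e i a) : BH e i (-a) :=
  ⟨ha.1.neg, ha.2.neg⟩

theorem bh_sub {e i : ℕ} {a b : A2 k} (ha : BH e i a) (hb : BH e i b) : BH e i (a - b) :=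
  ⟨ha.1.sub hb.1, ha.2.sub hb.2⟩

theorem bh_mul {e i e' i' : ℕ} {a b : A2 k} (ha : BH e i a) (hb : BH e' i' b) :
    BH (e + e') (i + i') (a * b) :=
  ⟨ha.1.mul hb.1, ha.2.mul hb.2⟩

theorem bh_pow {e i : ℕ} {a : A2 k} (ha : BH e i a) (n : ℕ) : BH (n * e) (n * i) (a ^ n) := by
  have h1 := ha.1.pow n
  have h2 := ha.2.pow n
  rw [smul_eq_mul] at h1 h2
  exact ⟨h1, h2⟩

theorem bh_sum {ι : Type*} (s : Finset ι) {e i : ℕ} (f : ι → A2 k) (hf : ∀ j ∈ s, BH e i (f j)) :
    BH e i (∑ j ∈ s, f j) :=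
  ⟨IsWeightedHomogeneous.sum s f e fun j hj => (hf j hj).1,
    IsWeightedHomogeneous.sum s f i fun j hj => (hf j hj).2⟩

theorem bh_prod {ι : Type*} (s : Finset ι) (e i : ι → ℕ) (f : ι → A2 k)
    (hf : ∀ j ∈ s, BH (e j) (i j) (f j)) : BH (∑ j ∈ s, e j) (∑ j ∈ s, i j) (∏ j ∈ s, f j) :=
  ⟨IsWeightedHomogeneous.prod s f e fun j hj => (hf j hj).1,
    IsWeightedHomogeneous.prod s f i fun j hj => (hf j hj).2⟩

theorem bh_aeval {e : ℕ} {φ : MvPolynomial (Fin 3) k} (hφ : φ.IsHomogeneous e) :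
    BH e 0 (aeval (xa (k := k)) φ) := by
  rw [aeval_def, eval₂_eq']
  refine bh_sum _ _ fun m hm => ?_
  have h1 : ∑ i, m i = e := by
    have h2 := hφ (mem_support_iff.1 hm)
    rw [Finsupp.weight_apply, Finsupp.sum_fintype _ _ (fun i => by simp)] at h2
    simpa using h2
  have h3 := bh_mul (bh_C (k := k) (coeff m φ)) (bh_prod Finset.univ _ _ _
    (fun (i : Fin 3) _ => bh_pow (bh_xa (k := k) i) (m i)))
  rw [zero_add, zero_add] at h3
  simp only [mul_one, mul_zero, Finset.sum_const_zero] at h3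
  rw [h1] at h3
  exact h3

/-! ### Elements of `R2` -/

theorem bhn_add {e n : ℕ} {N N' : R2 k} (h : BHN e n N) (h' : BHN e n N') : BHN e n (N + N') := by
  intro j
  rw [Polynomial.coeff_add]
  refine ⟨fun hj => bh_add ((h j).1 hj) ((h' j).1 hj), fun hj => ?_⟩
  rw [(h j).2 hj, (h' j).2 hj, add_zero]

theorem bhn_zero (e n : ℕ) : BHN e n (0 : R2 k) := by
  intro j
  rw [Polynomial.coeff_zero]
  exact ⟨fun _ => bh_zero _ _, fun _ => rfl⟩

theorem bhn_C {e n : ℕ} {c : A2 k} (h : BH e n c) : BHN e n (Polynomial.C c) := by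
  intro j
  rcases Nat.eq_zero_or_pos j with rfl | hj
  · rw [Polynomial.coeff_C_zero]
    refine ⟨fun _ => h, fun hn => ?_⟩
    omega
  · rw [Polynomial.coeff_C, if_neg hj.ne']
    exact ⟨fun _ => bh_zero _ _, fun _ => rfl⟩

theorem bhn_CX {e n : ℕ} {c : A2 k} (h : BH e n c) :
    BHN e (n + 3) (Polynomial.C c * Polynomial.X) := by
  intro j
  rcases Nat.eq_zero_or_pos j with rfl | hj
  · rw [Polynomial.mul_coeff_zero, Polynomial.coeff_X_zero]
    simp only [mul_zero]
    exact ⟨fun _ => bh_zero _ _, fun _ => trivial⟩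
  · obtain ⟨j, rfl⟩ : ∃ i, j = i + 1 := ⟨j - 1, by omega⟩
    rw [Polynomial.coeff_mul_X]
    rcases Nat.eq_zero_or_pos j with rfl | hj'
    · rw [Polynomial.coeff_C_zero]
      refine ⟨fun _ => ?_, fun hn => ?_⟩
      · have e1 : n + 3 - 3 * (0 + 1) = n := by omega
        rw [e1]
        exact h
      · omega
    · rw [Polynomial.coeff_C, if_neg hj'.ne']
      exact ⟨fun _ => bh_zero _ _, fun _ => rfl⟩

theorem bhn_mul {e n e' n' : ℕ} {N N' : R2 k} (h : BHN e n N) (h' : BHN e' n' N') :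
    BHN (e + e') (n + n') (N * N') := by
  intro j
  rw [Polynomial.coeff_mul]
  constructor
  · intro hj
    refine bh_sum _ _ fun ab hab => ?_
    have h1 : ab.1 + ab.2 = j := Finset.HasAntidiagonal.mem_antidiagonal.1 hab
    by_cases ha : n < 3 * ab.1
    · rw [(h ab.1).2 ha, zero_mul]
      exact bh_zero _ _
    by_cases hb : n' < 3 * ab.2
    · rw [(h' ab.2).2 hb, mul_zero]
      exact bh_zero _ _
    have h2 := bh_mul ((h ab.1).1 (by omega)) ((h' ab.2).1 (by omega))
    have h3 : n - 3 * ab.1 + (n' - 3 * ab.2) = n + n' - 3 * j := by omega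
    rwa [h3] at h2
  · intro hj
    refine Finset.sum_eq_zero fun ab hab => ?_
    have h1 : ab.1 + ab.2 = j := Finset.HasAntidiagonal.mem_antidiagonal.1 hab
    by_cases ha : n < 3 * ab.1
    · rw [(h ab.1).2 ha, zero_mul]
    · rw [(h' ab.2).2 (by omega), mul_zero]

theorem bhn_one : BHN 0 0 (1 : R2 k) := by
  have h := bhn_C (bh_C (k := k) 1)
  rwa [map_one, map_one] at h

theorem bhn_prod {ι : Type*} (s : Finset ι) (e n : ℕ) (f : ι → R2 k)
    (hf : ∀ j ∈ s, BHN e n (f j)) : BHN (s.card * e) (s.card * n) (∏ j ∈ s, f j) := by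
  classical
  induction s using Finset.induction_on with
  | empty =>
    rw [Finset.prod_empty, Finset.card_empty, zero_mul, zero_mul]
    exact bhn_one
  | insert a s ha ih =>
    rw [Finset.prod_insert ha, Finset.card_insert_of_notMem ha]
    have h1 := bhn_mul (hf a (Finset.mem_insert_self a s))
      (ih fun j hj => hf j (Finset.mem_insert_of_mem hj))
    have e1 : e + s.card * e = (s.card + 1) * e := by ring
    have e2 : n + s.card * n = (s.card + 1) * n := by ring
    rwa [e1, e2] at h1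

/-! ### Invariance -/

theorem dv_xa (i : Fin 3) : dv (xa i : A2 k) = 0 := by
  unfold dv xa
  rw [mkDerivation_X]
  rfl

theorem dv_ya (i : Fin 3) : dv (ya i : A2 k) = xa i := by
  unfold dv ya
  rw [mkDerivation_X]
  rfl

theorem dv_C (c : k) : dv (C c : A2 k) = 0 := by
  have h : (C c : A2 k) = algebraMap k (A2 k) c := rfl
  rw [h, Derivation.map_algebraMap]

theorem dv_aeval (φ : MvPolynomial (Fin 3) k) : dv (aeval (xa (k := k)) φ) = 0 := by
  induction φ using MvPolynomial.induction_on with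
  | C a =>
    rw [← MvPolynomial.algebraMap_eq, AlgHom.commutes, MvPolynomial.algebraMap_eq, dv_C]
  | add p q hp hq => rw [map_add, map_add, hp, hq, add_zero]
  | mul_X p i hp => rw [map_mul, aeval_X, Derivation.leibniz, hp, dv_xa, smul_zero, smul_zero,
      add_zero]

theorem dv_mul0 {a b : A2 k} (ha : dv a = 0) (hb : dv b = 0) : dv (a * b) = 0 := by
  rw [Derivation.leibniz, ha, hb, smul_zero, smul_zero, add_zero]

theorem dv_pow0 {a : A2 k} (ha : dv a = 0) (n : ℕ) : dv (a ^ n) = 0 := by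
  rw [Derivation.leibniz_pow, ha, smul_zero, smul_zero]

theorem dv_sum0 {ι : Type*} (s : Finset ι) (f : ι → A2 k) (hf : ∀ j ∈ s, dv (f j) = 0) :
    dv (∑ j ∈ s, f j) = 0 := by
  rw [map_sum]
  exact Finset.sum_eq_zero hf

theorem dv_prod0 {ι : Type*} (s : Finset ι) (f : ι → A2 k) (hf : ∀ j ∈ s, dv (f j) = 0) :
    dv (∏ j ∈ s, f j) = 0 := by
  classical
  induction s using Finset.induction_on with
  | empty => rw [Finset.prod_empty, Derivation.map_one_eq_zero]
  | insert a s ha ih =>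
    rw [Finset.prod_insert ha]
    exact dv_mul0 (hf a (Finset.mem_insert_self a s))
      (ih fun j hj => hf j (Finset.mem_insert_of_mem hj))

theorem inv_C {c : A2 k} (h : dv c = 0) : Inv (Polynomial.C c) := by
  intro j
  rw [Polynomial.coeff_C]
  split_ifs
  · exact h
  · rw [map_zero]

theorem inv_X : Inv (Polynomial.X : R2 k) := by
  intro j
  rw [Polynomial.coeff_X]
  split_ifs
  · rw [Derivation.map_one_eq_zero]
  · rw [map_zero]

theorem inv_add {N N' : R2 k} (h : Inv N) (h' : Inv N') : Inv (N + N') := by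
  intro j
  rw [Polynomial.coeff_add, map_add, h j, h' j, add_zero]

theorem inv_mul {N N' : R2 k} (h : Inv N) (h' : Inv N') : Inv (N * N') := by
  intro j
  rw [Polynomial.coeff_mul]
  exact dv_sum0 _ _ fun ab _ => dv_mul0 (h ab.1) (h' ab.2)

theorem inv_prod {ι : Type*} (s : Finset ι) (f : ι → R2 k) (hf : ∀ j ∈ s, Inv (f j)) :
    Inv (∏ j ∈ s, f j) := by
  classical
  induction s using Finset.induction_on with
  | empty =>
    rw [Finset.prod_empty]
    have h := inv_C (k := k) (c := 1) (Derivation.map_one_eq_zero dv)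
    rwa [map_one] at h
  | insert a s ha ih =>
    rw [Finset.prod_insert ha]
    exact inv_mul (hf a (Finset.mem_insert_self a s))
      (ih fun j hj => hf j (Finset.mem_insert_of_mem hj))

end Pool.Agent.H17.SM
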